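import Mathlib

/-!
The combinatorial part.
-/

open Set Cardinal

universe u

namespace Pool.Agent.Lib.MP_1644e0_gt

/-- a product colouring argument -/
theorem chromatic {C N T : Type u} (c : C → C → N) (h : #(N → T) < #C) :
    ∃ r : N, ∀ g : C → T, ∃ p q, p ≠ q ∧ g p = g q ∧ c p q = r := by
  by_contra hcon
  push Not at hcon
  choose g hg using hcon
  have hni : ¬ Function.Injective (fun p : C => fun r : N => g r p) := fun hinj =>
    not_le.2 h (Cardinal.mk_le_of_injective hinj)
  rw [Function.Injective] at hni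
  push Not at hni
  obtain ⟨p, q, hpq, hne⟩ := hni
  exact hg (c p q) p q hne (congrFun hpq (c p q)) rfl

section

variable {E : Type u} (r : E → E → Prop) (C : E → Type u)

/-- the part below `e` -/
abbrev Low (e : E) : Type u := Σ e' : {e' // r e' e}, C e'.1

/-- the colours needed at `e` -/
abbrev Tgt (e : E) : Type u :=
  ((Σ e' : {e' // r e' e}, C e'.1 × C e'.1) → Bool) × (E → Bool) × (ULift.{u} ℕ → Bool)

theorem selection [IsWellOrder E r]
    (hC : ∀ e, #((Low r C e → Bool) → Tgt r C e) < #(C e))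
    (y : ∀ e, C e → C e → (Σ e, C e) → Bool) :
    ∃ p q : ∀ e, C e, (∀ e, p e ≠ q e) ∧ ∀ e e', e ≠ e' →
      y e' (p e') (q e') ⟨e, p e⟩ = y e' (p e') (q e') ⟨e, q e⟩ := by
  classical
  have h1 : ∀ e, ∃ t : Low r C e → Bool, ∀ g : C e → Tgt r C e, ∃ p q, p ≠ q ∧ g p = g q ∧
      (fun z : Low r C e => y e p q ⟨z.1.1, z.2⟩) = t := fun e =>
    chromatic (fun p q : C e => fun z : Low r C e => y e p q ⟨z.1.1, z.2⟩) (hC e)
  choose t ht using h1
  let g : ∀ e, C e → Tgt r C e := fun e p =>
    (fun z => y z.1.1 z.2.1 z.2.2 ⟨e, p⟩,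
      fun e' => if h : r e e' then t e' ⟨⟨e, h⟩, p⟩ else false, fun _ => false)
  choose p q hpq hg hy using fun e => ht e (g e)
  refine ⟨p, q, hpq, ?_⟩
  intro e e' hee'
  rcases trichotomous_of r e e' with h | h | h
  · -- `e` below `e'`
    have e1 := congrFun (hy e') ⟨⟨e, h⟩, p e⟩
    have e2 := congrFun (hy e') ⟨⟨e, h⟩, q e⟩
    simp only at e1 e2
    rw [e1, e2]
    have e3 := congrFun (congrArg (fun z : Tgt r C e => z.2.1) (hg e)) e'
    simpa [g, h] using e3
  · exact absurd h hee'
  · have e3 := congrFun (congrArg (fun z : Tgt r C e => z.1) (hg e)) ⟨⟨e', h⟩, (p e', q e')⟩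
    exact e3

/-- the recursion for the cardinalities -/
noncomputable def mF (e : E) (ih : ∀ e', r e' e → Cardinal.{u}) : Cardinal.{u} :=
  Order.succ #(((Σ e' : {e' // r e' e}, (ih e'.1 e'.2).out) → Bool) →
    (((Σ e' : {e' // r e' e}, (ih e'.1 e'.2).out × (ih e'.1 e'.2).out) → Bool) × (E → Bool) ×
      (ULift.{u} ℕ → Bool)))

variable [IsWellOrder E r]

/-- the cardinality of the `e`-th block -/
noncomputable def mm : E → Cardinal.{u} :=
  (IsWellFounded.wf (r := r)).fix (mF r)

/-- the `e`-th block -/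
def Blk (e : E) : Type u := (mm r e).out

theorem blk_large (e : E) : #((Low r (Blk r) e → Bool) → Tgt r (Blk r) e) < #(Blk r e) := by
  have h1 : mm r e = mF r e (fun e' _ => mm r e') := (IsWellFounded.wf (r := r)).fix_eq (mF r) e
  have h2 : #(Blk r e) = mm r e := Cardinal.mk_out _
  rw [h2, h1]
  exact Order.lt_succ _

end

/-- finite partial functions -/
abbrev EA (A : Type u) : Type u := Finset A × Finset A

/-- the next layer of coordinates -/
def Bt (A : Type u) : Type u := Σ e : EA A, Blk (WellOrderingRel (α := EA A)) e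

/-- the coordinates below level `n` -/
def AA : ℕ → Type u
  | 0 => PEmpty
  | n + 1 => AA n ⊕ Bt (AA n)

/-- all coordinates -/
def Lam : Type u := Σ n, Bt (AA n)

/-- the inclusion of the coordinates below level `n` -/
def phi : ∀ n, AA.{u} n → Lam.{u}
  | 0 => fun x => PEmpty.elim x
  | n + 1 => fun x => Sum.elim (phi n) (fun b => ⟨n, b⟩) x

theorem phi_lt : ∀ n (a : AA.{u} n), (phi n a).1 < n
  | 0, a => PEmpty.elim a
  | n + 1, Sum.inl a => Nat.lt_succ_of_lt (phi_lt n a)
  | n + 1, Sum.inr _ => Nat.lt_succ_self n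

theorem phi_injective : ∀ n, Function.Injective (phi.{u} n)
  | 0 => fun a => PEmpty.elim a
  | n + 1 => by
    rintro (a | a) (b | b) h
    · exact congrArg Sum.inl (phi_injective n h)
    · exfalso
      have h1 : phi n a = ⟨n, b⟩ := h
      have h2 := phi_lt n a
      rw [h1] at h2
      exact lt_irrefl n h2
    · exfalso
      have h1 : (⟨n, a⟩ : Lam) = phi n b := h
      have h2 := phi_lt n b
      rw [← h1] at h2
      exact lt_irrefl n h2
    · have h1 : (⟨n, a⟩ : Lam) = ⟨n, b⟩ := h
      have h2 : a = b := by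
        have := Sigma.mk.inj h1
        exact eq_of_heq this.2
      rw [h2]

theorem phi_range : ∀ n (x : Lam.{u}), x.1 < n → ∃ a, phi n a = x
  | 0, x, h => absurd h (Nat.not_lt_zero _)
  | n + 1, ⟨k, b⟩, h => by
    rcases Nat.lt_succ_iff_lt_or_eq.1 h with h1 | h1
    · obtain ⟨a, ha⟩ := phi_range n ⟨k, b⟩ h1
      exact ⟨Sum.inl a, ha⟩
    · simp only at h1
      subst h1
      exact ⟨Sum.inr b, rfl⟩

theorem not_countable_cantor : ¬ Countable (ULift.{u} ℕ → Bool) := by
  intro hc
  obtain ⟨f, hf⟩ := exists_surjective_nat (ULift.{u} ℕ → Bool)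
  classical
  refine Function.cantor_surjective (fun n : ℕ => {m : ℕ | f n ⟨m⟩ = true}) ?_
  intro A
  obtain ⟨n, hn⟩ := hf (fun m => decide (m.down ∈ A))
  refine ⟨n, ?_⟩
  ext m
  simp [hn]

theorem blk_uncountable {E : Type u} (r : E → E → Prop) [IsWellOrder E r] (e : E) :
    ¬ Countable (Blk r e) := by
  intro hc
  have h3 := blk_large r e
  have h4 : #(Blk r e) ≤ ℵ₀ := Cardinal.mk_le_aleph0
  have h5 := h3.trans_le h4
  let f : (ULift.{u} ℕ → Bool) → (Low r (Blk r) e → Bool) → Tgt r (Blk r) e :=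
    fun s _ => (fun _ => false, fun _ => false, s)
  have hf : Function.Injective f := by
    intro s s' hss
    have h := congrFun hss (fun _ => false)
    exact (Prod.mk.inj (Prod.mk.inj h).2).2
  have h7 := (Cardinal.mk_le_of_injective hf).trans_lt h5
  exact not_countable_cantor (Cardinal.mk_le_aleph0_iff.1 h7.le)

theorem uncountable_Lam : ¬ Countable Lam.{u} := by
  intro hc
  let e : EA (AA.{u} 0) := (∅, ∅)
  have h1 : Function.Injective (fun b : Blk (WellOrderingRel (α := EA (AA.{u} 0))) e =>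
      (⟨0, ⟨e, b⟩⟩ : Lam.{u})) := by
    intro a b hab
    have h2 := eq_of_heq (Sigma.mk.inj hab).2
    exact eq_of_heq (Sigma.mk.inj h2).2
  exact blk_uncountable _ e (Function.Injective.countable (β := Lam.{u}) h1)

end Pool.Agent.Lib.MP_1644e0_gt
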