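import Mathlib

/-!
Definitions: D-separable spaces and sigma-disjoint pi-bases.
-/

open Set Topology

namespace Pool.Agent.Lib.MP_1644e0_gt

/-- `X` is D-separable: for every sequence `D n` of dense sets there are discrete sets
`F n ⊆ D n` whose union is dense. -/
def IsDSeparable (X : Type*) [TopologicalSpace X] : Prop :=
  ∀ D : ℕ → Set X, (∀ n, Dense (D n)) →
    ∃ F : ℕ → Set X, (∀ n, F n ⊆ D n ∧ IsDiscrete (F n)) ∧ Dense (⋃ n, F n)

/-- A pi-base: a family of non-empty open sets such that every non-empty open set contains one of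
them. -/
def IsPiBase {X : Type*} [TopologicalSpace X] (𝓑 : Set (Set X)) : Prop :=
  (∀ B ∈ 𝓑, IsOpen B ∧ B.Nonempty) ∧ ∀ U : Set X, IsOpen U → U.Nonempty → ∃ B ∈ 𝓑, B ⊆ U

/-- A sigma-disjoint family: a union of countably many families of pairwise disjoint sets. -/
def IsSigmaDisjoint {X : Type*} (𝓑 : Set (Set X)) : Prop :=
  ∃ 𝓒 : ℕ → Set (Set X), 𝓑 = ⋃ n, 𝓒 n ∧ ∀ n, (𝓒 n).PairwiseDisjoint id

end Pool.Agent.Lib.MP_1644e0_gt
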