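import Mathlib
import Pool.Agent.Lib.MP_1644e0_gt.Defs
import Pool.Agent.Lib.MP_1644e0_gt.Comb

/-!
The topological part.
-/

open Set Topology

universe u

namespace Pool.Agent.Lib.MP_1644e0_gt

/-- open sets of the cube contain basic neighbourhoods -/
theorem exists_basic {L : Type u} {U : Set (L → Bool)} (hU : IsOpen U) {x : L → Bool}
    (hx : x ∈ U) : ∃ S : Finset L, {z | ∀ α ∈ S, z α = x α} ⊆ U := by
  obtain ⟨S, u, hu, hSU⟩ := isOpen_pi_iff.1 hU x hx
  refine ⟨S, fun z hz => hSU ?_⟩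
  intro α hα
  rw [hz α hα]
  exact (hu α hα).2

theorem isOpen_coord {L : Type u} (α : L) (v : Bool) : IsOpen {z : L → Bool | z α = v} := by
  have hc : Continuous fun w : L → Bool => w α := continuous_apply _
  exact (isOpen_discrete {v}).preimage hc

theorem isOpen_basic {L : Type u} (S : Finset L) (x : L → Bool) :
    IsOpen {z : L → Bool | ∀ α ∈ S, z α = x α} := by
  have : {z : L → Bool | ∀ α ∈ S, z α = x α} = ⋂ α ∈ (S : Set L), {z : L → Bool | z α = x α} := by
    ext z; simp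
  rw [this]
  exact (Finset.finite_toSet _).isOpen_biInter fun α _ => isOpen_coord α (x α)

/-- The main lemma: a dense set of the cube contains a discrete set which meets all basic sets
with support below level `n`. -/
theorem exists_discrete {D : Set (Lam.{u} → Bool)} (hD : Dense D) (n : ℕ) :
    ∃ F ⊆ D, IsDiscrete F ∧ ∀ (S : Finset Lam.{u}) (x : Lam.{u} → Bool), (∀ α ∈ S, α.1 < n) →
      ∃ z ∈ F, ∀ α ∈ S, z α = x α := by
  classical
  let E := EA (AA.{u} n)
  let C : E → Type u := Blk (WellOrderingRel (α := EA (AA.{u} n)))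
  let ψ : (Σ e : E, C e) → Lam.{u} := fun z => ⟨n, z⟩
  have hψ : Function.Injective ψ := by
    intro a b hab
    exact eq_of_heq (Sigma.mk.inj hab).2
  -- the chosen points
  have hpt : ∀ (e : E) (p q : C e), ∃ z ∈ D, (∀ a ∈ e.1, (z (phi n a) = true ↔ a ∈ e.2)) ∧
      (p ≠ q → z (ψ ⟨e, p⟩) = true ∧ z (ψ ⟨e, q⟩) = false) := by
    intro e p q
    -- a model point
    let w : Lam.{u} → Bool := fun α =>
      if α = ψ ⟨e, p⟩ then true else if α = ψ ⟨e, q⟩ then false else
        decide (∃ a ∈ e.2, phi n a = α)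
    obtain ⟨z, hz, hzD⟩ := hD.inter_open_nonempty _
      (isOpen_basic (e.1.image (phi n) ∪ {ψ ⟨e, p⟩, ψ ⟨e, q⟩}) w) ⟨w, fun α _ => rfl⟩
    refine ⟨z, hzD, ?_, ?_⟩
    · intro a ha
      have h1 : z (phi n a) = w (phi n a) :=
        hz _ (Finset.mem_union_left _ (Finset.mem_image_of_mem _ ha))
      have h2 : ∀ b, phi n a ≠ ψ b := by
        intro b hb
        have := phi_lt n a
        rw [hb] at this
        exact lt_irrefl n this
      rw [h1]
      simp only [w]
      rw [if_neg (h2 _), if_neg (h2 _), decide_eq_true_iff]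
      constructor
      · rintro ⟨b, hb, hab⟩
        rw [← phi_injective n hab]
        exact hb
      · intro h
        exact ⟨a, h, rfl⟩
    · intro hpq
      have h1 : z (ψ ⟨e, p⟩) = w (ψ ⟨e, p⟩) := hz _ (by simp)
      have h2 : z (ψ ⟨e, q⟩) = w (ψ ⟨e, q⟩) := hz _ (by simp)
      have h3 : ψ ⟨e, q⟩ ≠ ψ ⟨e, p⟩ := by
        intro h
        have h4 := hψ h
        exact hpq (eq_of_heq (Sigma.mk.inj h4).2).symm
      rw [h1, h2]
      simp only [w]
      rw [if_pos trivial, if_neg h3, if_pos trivial]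
      exact ⟨rfl, rfl⟩
  choose pt hptD hpte hptpq using hpt
  obtain ⟨p, q, hpq, hsel⟩ := selection (WellOrderingRel (α := EA (AA.{u} n))) C
    (blk_large _) (fun e p q z => pt e p q (ψ z))
  refine ⟨range fun e => pt e (p e) (q e), ?_, ?_, ?_⟩
  · rintro _ ⟨e, rfl⟩
    exact hptD _ _ _
  · rw [isDiscrete_iff_forall_mem_exists_isOpen]
    rintro _ ⟨e, rfl⟩
    refine ⟨{z | z (ψ ⟨e, p e⟩) = true} ∩ {z | z (ψ ⟨e, q e⟩) = false},
      (isOpen_coord _ _).inter (isOpen_coord _ _), ?_⟩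
    have h1 := hptpq e (p e) (q e) (hpq e)
    apply Subset.antisymm
    · rintro _ ⟨⟨h2, h3⟩, ⟨e', rfl⟩⟩
      by_cases hee : e = e'
      · subst hee; rfl
      · exfalso
        have h4 := hsel e e' hee
        simp only [mem_ofPred_eq] at h2 h3
        rw [h2, h3] at h4
        exact Bool.noConfusion h4
    · rintro _ rfl
      exact ⟨⟨h1.1, h1.2⟩, ⟨e, rfl⟩⟩
  · intro S x hS
    -- the partial function as an element of `E`
    let R : Finset (AA.{u} n) := S.preimage (phi n) (phi_injective n).injOn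
    let T : Finset (AA.{u} n) := R.filter fun a => x (phi n a) = true
    refine ⟨_, ⟨(R, T), rfl⟩, ?_⟩
    intro α hα
    obtain ⟨a, rfl⟩ := phi_range n α (hS α hα)
    have ha : a ∈ R := Finset.mem_preimage.2 hα
    have h1 := hpte (R, T) (p (R, T)) (q (R, T)) a ha
    rw [Bool.eq_iff_iff, h1]
    simp only [T, Finset.mem_filter]
    exact ⟨fun h => h.2, fun h => ⟨ha, h⟩⟩

theorem dSeparable_Lam : IsDSeparable (Lam.{u} → Bool) := by
  intro D hD
  choose F hFD hFd hF using fun n => exists_discrete (hD n) n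
  refine ⟨F, fun n => ⟨hFD n, hFd n⟩, ?_⟩
  rw [dense_iff_inter_open]
  rintro U hU ⟨x, hx⟩
  obtain ⟨S, hS⟩ := exists_basic hU hx
  obtain ⟨z, hz, hzS⟩ := hF (S.sup (fun α => α.1) + 1) S x
    (fun α hα => Nat.lt_succ_of_le (Finset.le_sup (f := fun α : Lam.{u} => α.1) hα))
  exact ⟨z, hS hzS, mem_iUnion.2 ⟨_, hz⟩⟩

/-- pairwise incompatible finite partial functions with domains of bounded size form a finite
family -/
theorem finite_incompatible {L ι : Type*} (k : ℕ) : ∀ (I : Set ι) (G : ι → Finset L)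
    (x : ι → L → Bool), (∀ i ∈ I, (G i).card ≤ k) →
    (∀ i ∈ I, ∀ j ∈ I, i ≠ j → ∃ α ∈ G i, α ∈ G j ∧ x i α ≠ x j α) → I.Finite := by
  classical
  induction k with
  | zero =>
    intro I G x hk hI
    refine Set.Subsingleton.finite ?_
    intro i hi j hj
    by_contra hne
    obtain ⟨α, hα, -⟩ := hI i hi j hj hne
    have := hk i hi
    rw [Nat.le_zero, Finset.card_eq_zero] at this
    rw [this] at hα
    exact absurd hα (Finset.notMem_empty _)
  | succ k ih =>
    intro I G x hk hI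
    by_contra hinf
    obtain ⟨i₀, hi₀⟩ : I.Nonempty := by
      by_contra hne
      rw [not_nonempty_iff_eq_empty] at hne
      exact hinf (hne ▸ finite_empty)
    -- split according to the place of conflict
    have hcov : I ⊆ {i₀} ∪ ⋃ α ∈ G i₀, {j | j ∈ I ∧ α ∈ G j ∧ x i₀ α ≠ x j α} := by
      intro j hj
      by_cases hij : i₀ = j
      · left; exact hij.symm
      · right
        obtain ⟨α, h1, h2, h3⟩ := hI i₀ hi₀ j hj hij
        exact mem_biUnion h1 ⟨hj, h2, h3⟩
    apply hinf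
    refine Set.Finite.subset ((finite_singleton _).union
      ((Finset.finite_toSet (G i₀)).biUnion fun α _ => ?_)) hcov
    refine ih {j | j ∈ I ∧ α ∈ G j ∧ x i₀ α ≠ x j α} (fun j => (G j).erase α) x ?_ ?_
    · rintro j ⟨hj, hαj, -⟩
      rw [Finset.card_erase_of_mem hαj]
      have := hk j hj
      omega
    · rintro i ⟨hi, hαi, hxi⟩ j ⟨hj, hαj, hxj⟩ hij
      obtain ⟨β, h1, h2, h3⟩ := hI i hi j hj hij
      have hβ : β ≠ α := by
        rintro rfl
        apply h3
        revert hxi hxj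
        cases x i₀ β <;> cases x i β <;> cases x j β <;> simp
      exact ⟨β, Finset.mem_erase.2 ⟨hβ, h1⟩, Finset.mem_erase.2 ⟨hβ, h2⟩, h3⟩

/-- the cube satisfies the countable chain condition -/
theorem countable_of_disjoint {L : Type*} {𝓒 : Set (Set (L → Bool))}
    (ho : ∀ B ∈ 𝓒, IsOpen B ∧ B.Nonempty) (hd : 𝓒.PairwiseDisjoint id) : 𝓒.Countable := by
  classical
  have hch : ∀ B : Set (L → Bool), ∃ (x : L → Bool) (S : Finset L), B ∈ 𝓒 →
      {z | ∀ α ∈ S, z α = x α} ⊆ B := by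
    intro B
    by_cases hB : B ∈ 𝓒
    · obtain ⟨x, hx⟩ := (ho B hB).2
      obtain ⟨S, hS⟩ := exists_basic (ho B hB).1 hx
      exact ⟨x, S, fun _ => hS⟩
    · exact ⟨fun _ => false, ∅, fun h => absurd h hB⟩
  choose x S hS using hch
  have hfin : ∀ k : ℕ, {B | B ∈ 𝓒 ∧ (S B).card ≤ k}.Finite := by
    intro k
    refine finite_incompatible k _ S x (fun B hB => hB.2) ?_
    rintro B ⟨hB, -⟩ B' ⟨hB', -⟩ hne
    by_contra hcon
    push Not at hcon
    have hdis := hd hB hB' hne
    -- the common point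
    let z : L → Bool := fun α => if α ∈ S B then x B α else x B' α
    have h1 : z ∈ B := hS B hB (by
      intro α hα
      simp only [z]
      rw [if_pos hα])
    have h2 : z ∈ B' := hS B' hB' (by
      intro α hα
      simp only [z]
      split_ifs with h
      · exact hcon α h hα
      · rfl)
    exact Set.disjoint_left.1 hdis h1 h2
  have hU : 𝓒 ⊆ ⋃ k, {B | B ∈ 𝓒 ∧ (S B).card ≤ k} := fun B hB =>
    mem_iUnion.2 ⟨(S B).card, hB, le_rfl⟩
  exact (countable_iUnion fun k => (hfin k).countable).mono hU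

/-- an uncountable cube has no sigma-disjoint pi-base -/
theorem no_sigmaDisjoint_piBase {L : Type*} (hL : ¬ Countable L) :
    ¬ ∃ 𝓑 : Set (Set (L → Bool)), IsPiBase 𝓑 ∧ IsSigmaDisjoint 𝓑 := by
  classical
  rintro ⟨𝓑, ⟨ho, hpi⟩, 𝓒, rfl, hd⟩
  have hcount : (⋃ n, 𝓒 n).Countable := countable_iUnion fun n =>
    countable_of_disjoint (fun B hB => ho B (mem_iUnion.2 ⟨n, hB⟩)) (hd n)
  have hch : ∀ B : Set (L → Bool), ∃ (x : L → Bool) (S : Finset L), B ∈ ⋃ n, 𝓒 n →
      {z | ∀ α ∈ S, z α = x α} ⊆ B := by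
    intro B
    by_cases hB : B ∈ ⋃ n, 𝓒 n
    · obtain ⟨x, hx⟩ := (ho B hB).2
      obtain ⟨S, hS⟩ := exists_basic (ho B hB).1 hx
      exact ⟨x, S, fun _ => hS⟩
    · exact ⟨fun _ => false, ∅, fun h => absurd h hB⟩
  choose x S hS using hch
  have hc2 : (⋃ B ∈ ⋃ n, 𝓒 n, (S B : Set L)).Countable :=
    hcount.biUnion fun B _ => (Finset.finite_toSet _).countable
  obtain ⟨α, hα⟩ : ∃ α, α ∉ ⋃ B ∈ ⋃ n, 𝓒 n, (S B : Set L) := by
    by_contra hcon
    push Not at hcon
    rw [eq_univ_of_forall hcon] at hc2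
    exact hL (Set.countable_univ_iff.1 hc2)
  obtain ⟨B, hB, hBU⟩ := hpi {z | z α = false} (isOpen_coord α false) ⟨fun _ => false, rfl⟩
  have hz : (fun β => if β = α then true else x B β) ∈ B := hS B hB (by
    intro β hβ
    have : β ≠ α := by
      rintro rfl
      exact hα (mem_biUnion hB (Finset.mem_coe.2 hβ))
    simp [this])
  have := hBU hz
  simp at this

end Pool.Agent.Lib.MP_1644e0_gt
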